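import Mathlib
import Pool.Agent.W187.WP.Stmts2

/-!
# Comparison of the Weil form with its rational approximation (subtask WP-QQ)
-/

open Complex MeasureTheory Set Pool.Agent.W187.WP

namespace Pool.Agent.W15.WP

theorem hcs {h : ℝ → ℝ} (hz : ∀ x, 1 ≤ |x| → h x = 0) : HasCompactSupport h := by
  apply HasCompactSupport.intro (isCompact_Icc (a := (-1 : ℝ)) (b := 1))
  intro x hx
  apply hz
  by_contra hlt
  push Not at hlt
  exact hx ⟨(abs_lt.1 hlt).1.le, (abs_lt.1 hlt).2.le⟩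

theorem int_supp {f : ℝ → ℝ} {a b : ℝ} (hf : ∀ x, (x ≤ a ∨ b ≤ x) → f x = 0) :
    ∫ x : ℝ, f x = ∫ x in a..b, f x := by
  symm
  apply intervalIntegral.integral_eq_integral_of_support_subset
  intro x hx
  rw [Function.mem_support] at hx
  constructor
  · by_contra hh
    push Not at hh
    exact hx (hf x (Or.inl hh))
  · by_contra hh
    push Not at hh
    exact hx (hf x (Or.inr hh.le))

theorem abs_of_le {x : ℝ} (hx : x ≤ -1 ∨ 1 ≤ x) : 1 ≤ |x| := by
  rcases hx with hx | hx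
  · rw [abs_of_nonpos (by linarith)]; linarith
  · rw [abs_of_nonneg (by linarith)]; exact hx

theorem GG_eq {h : ℝ → ℝ} (hz : ∀ x, 1 ≤ |x| → h x = 0) (s : ℝ) :
    GG h s = ∫ x in (-1 : ℝ)..1, h (x + s) * h x := by
  unfold GG
  apply int_supp
  intro x hx
  rw [hz x (abs_of_le hx), mul_zero]

theorem GG_zero {h : ℝ → ℝ} (hz : ∀ x, 1 ≤ |x| → h x = 0) :
    GG h 0 = ∫ x in (-1 : ℝ)..1, h x ^ 2 := by
  rw [GG_eq hz]
  congr 1
  ext x
  rw [add_zero, sq]

theorem GG_54 {h : ℝ → ℝ} (hz : ∀ x, 1 ≤ |x| → h x = 0) :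
    GG h (5 / 4) = ∫ x in (-1 : ℝ)..(-1 / 4), h x * h (x + 5 / 4) := by
  unfold GG
  rw [int_supp (a := -1) (b := -1 / 4)]
  · congr 1
    ext x
    ring
  · intro x hx
    rcases hx with hx | hx
    · rw [hz x (abs_of_le (Or.inl hx)), mul_zero]
    · rw [hz (x + 5 / 4) (abs_of_le (Or.inr (by linarith))), zero_mul]

theorem GG_cont {h : ℝ → ℝ} (hc : Continuous h) (hz : ∀ x, 1 ≤ |x| → h x = 0) :
    Continuous (GG h) := by
  have : GG h = fun s => ∫ x in (-1 : ℝ)..1, h (x + s) * h x := by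
    ext s; exact GG_eq hz s
  rw [this]
  apply intervalIntegral.continuous_parametric_intervalIntegral_of_continuous'
  fun_prop

theorem GG_le {h : ℝ → ℝ} (hc : Continuous h) (hz : ∀ x, 1 ≤ |x| → h x = 0) (s : ℝ) :
    |GG h s| ≤ GG h 0 := by
  have hi : Integrable (fun x => h x * h x) :=
    (hc.mul hc).integrable_of_hasCompactSupport ((hcs hz).mul_left)
  have hi' : Integrable (fun x => h (x + s) * h (x + s)) := hi.comp_add_right s
  have hi2 : Integrable (fun x => (h (x + s) * h (x + s) + h x * h x) / 2) :=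
    (hi'.add hi).div_const 2
  calc |GG h s| ≤ ∫ x, |h (x + s) * h x| := abs_integral_le_integral_abs
    _ ≤ ∫ x, (h (x + s) * h (x + s) + h x * h x) / 2 := by
        apply integral_mono_of_nonneg
        · exact Filter.Eventually.of_forall (fun x => abs_nonneg _)
        · exact hi2
        · refine Filter.Eventually.of_forall (fun x => ?_)
          simp only
          rw [abs_le]
          constructor <;> nlinarith [sq_nonneg (h (x + s) + h x), sq_nonneg (h (x + s) - h x)]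
    _ = GG h 0 := by
        rw [integral_div, integral_add hi' hi]
        have : ∫ x, h (x + s) * h (x + s) = ∫ x, h x * h x :=
          integral_add_right_eq_self (fun x => h x * h x) s
        rw [this]
        unfold GG
        simp only [add_zero]
        ring

theorem GG_nonneg {h : ℝ → ℝ} (hc : Continuous h) (hz : ∀ x, 1 ≤ |x| → h x = 0) :
    0 ≤ GG h 0 := (abs_nonneg _).trans (GG_le hc hz 0)

theorem GG_lip {h : ℝ → ℝ} (h1 : ContDiff ℝ 1 h) (hz : ∀ x, 1 ≤ |x| → h x = 0) :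
    ∃ B : ℝ, ∀ s, 0 < s → |(GG h 0 - GG h s) / s| ≤ B := by
  obtain ⟨C, hC⟩ := h1.lipschitzWith_of_hasCompactSupport (hcs hz) (by simp)
  have hc := h1.continuous
  refine ⟨C * ∫ x in (-1 : ℝ)..1, |h x|, fun s hs => ?_⟩
  rw [abs_div, abs_of_pos hs, div_le_iff₀ hs, GG_eq hz 0, GG_eq hz s, ← intervalIntegral.integral_sub]
  · calc |∫ x in (-1 : ℝ)..1, (h (x + 0) * h x - h (x + s) * h x)|
        ≤ ∫ x in (-1 : ℝ)..1, |h (x + 0) * h x - h (x + s) * h x| :=
          intervalIntegral.abs_integral_le_integral_abs (by norm_num)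
      _ ≤ ∫ x in (-1 : ℝ)..1, (C * s) * |h x| := by
          apply intervalIntegral.integral_mono_on (by norm_num)
          · apply Continuous.intervalIntegrable; fun_prop
          · apply Continuous.intervalIntegrable; fun_prop
          · intro x _
            have h3 := hC.dist_le_mul (x + 0) (x + s)
            rw [Real.dist_eq, Real.dist_eq] at h3
            have h4 : |x + 0 - (x + s)| = s := by
              rw [show x + 0 - (x + s) = -s by ring, abs_neg, abs_of_pos hs]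
            rw [h4] at h3
            rw [← sub_mul, abs_mul]
            exact mul_le_mul_of_nonneg_right h3 (abs_nonneg _)
      _ = C * (∫ x in (-1 : ℝ)..1, |h x|) * s := by
          rw [intervalIntegral.integral_const_mul]; ring
  · apply Continuous.intervalIntegrable; fun_prop
  · apply Continuous.intervalIntegrable; fun_prop

theorem ii_bdd {f : ℝ → ℝ} {B : ℝ} (hf : ContinuousOn f (Ioc 0 2)) (hB : ∀ s ∈ Ioc (0 : ℝ) 2, |f s| ≤ B) :
    IntervalIntegrable f volume 0 2 := by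
  rw [intervalIntegrable_iff_integrableOn_Ioc_of_le (by norm_num)]
  exact Integrable.of_bound (hf.aestronglyMeasurable measurableSet_Ioc) B
    ((ae_restrict_mem measurableSet_Ioc).mono (fun s hs => by
      rw [Real.norm_eq_abs]; exact hB s hs))

theorem ev_cont (l : List ℚ) : Continuous (ev l) := by
  induction l with
  | nil => exact continuous_const
  | cons a l ih =>
    have : ev (a :: l) = fun x => (a : ℝ) + x * ev l x := rfl
    rw [this]
    fun_prop

/-- absolute value bound of `ev` on `[-1,1]` -/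
theorem ev_abs (l : List ℚ) {x : ℝ} (hx : |x| ≤ 1) : |ev l x| ≤ ((l.map (fun a => |a|)).sum : ℚ) := by
  induction l with
  | nil => simp [ev]
  | cons a l ih =>
    have h1 : |(a : ℝ) + x * ev l x| ≤ |(a : ℝ)| + |x| * |ev l x| := by
      rw [← abs_mul]; exact abs_add_le _ _
    have h2 : |x| * |ev l x| ≤ 1 * |ev l x| := mul_le_mul_of_nonneg_right hx (abs_nonneg _)
    rw [List.map_cons, List.sum_cons, Rat.cast_add, Rat.cast_abs]
    change |(a : ℝ) + x * ev l x| ≤ _
    linarith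

/-- Cauchy-Schwarz: `(∫ |h|)^2 ≤ 2 ∫ h^2` -/
theorem l1_le {h : ℝ → ℝ} (hc : Continuous h) :
    (∫ x in (-1 : ℝ)..1, |h x|) ^ 2 ≤ 2 * ∫ x in (-1 : ℝ)..1, h x ^ 2 := by
  set A := ∫ x in (-1 : ℝ)..1, |h x| with hA
  have h0 : 0 ≤ ∫ x in (-1 : ℝ)..1, (|h x| - A / 2) ^ 2 :=
    intervalIntegral.integral_nonneg (by norm_num) (fun x _ => sq_nonneg _)
  have h1 : ∫ x in (-1 : ℝ)..1, (|h x| - A / 2) ^ 2 =
      (∫ x in (-1 : ℝ)..1, h x ^ 2) - A * A + 2 * (A / 2) ^ 2 := by
    have e1 : (fun x => (|h x| - A / 2) ^ 2) = fun x => (h x ^ 2 - A * |h x|) + (A / 2) ^ 2 := by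
      ext x
      have : |h x| ^ 2 = h x ^ 2 := sq_abs _
      nlinarith
    rw [e1, intervalIntegral.integral_add, intervalIntegral.integral_sub,
      intervalIntegral.integral_const_mul, intervalIntegral.integral_const]
    · rw [← hA]; norm_num
    · apply Continuous.intervalIntegrable; fun_prop
    · apply Continuous.intervalIntegrable; fun_prop
    · apply Continuous.intervalIntegrable; fun_prop
    · apply Continuous.intervalIntegrable; fun_prop
  rw [h1] at h0
  nlinarith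

/-- comparison of the square of a linear functional -/
theorem lin_cmp {h f g : ℝ → ℝ} (hc : Continuous h) (hf : Continuous f) (hg : Continuous g)
    {d M : ℝ} (hd : 0 ≤ d) (hM : 0 ≤ M)
    (hfg : ∀ x, |x| ≤ 1 → |f x - g x| ≤ d) (hgM : ∀ x, |x| ≤ 1 → |g x| ≤ M) :
    |(∫ x in (-1 : ℝ)..1, h x * f x) ^ 2 - (∫ x in (-1 : ℝ)..1, h x * g x) ^ 2| ≤
      (2 * d * (2 * M + d)) * (∫ x in (-1 : ℝ)..1, h x ^ 2) ∧
    (∫ x in (-1 : ℝ)..1, h x * g x) ^ 2 ≤ 2 * M ^ 2 * (∫ x in (-1 : ℝ)..1, h x ^ 2) := by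
  set A := ∫ x in (-1 : ℝ)..1, |h x| with hA
  set n := ∫ x in (-1 : ℝ)..1, h x ^ 2 with hn
  have hAn : A ^ 2 ≤ 2 * n := l1_le hc
  have hA0 : 0 ≤ A := intervalIntegral.integral_nonneg (by norm_num) (fun x _ => abs_nonneg _)
  have key : ∀ (u : ℝ → ℝ) (K : ℝ), Continuous u → 0 ≤ K → (∀ x, |x| ≤ 1 → |u x| ≤ K) →
      |∫ x in (-1 : ℝ)..1, h x * u x| ≤ K * A := by
    intro u K hu hK hb
    calc |∫ x in (-1 : ℝ)..1, h x * u x| ≤ ∫ x in (-1 : ℝ)..1, |h x * u x| :=
          intervalIntegral.abs_integral_le_integral_abs (by norm_num)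
      _ ≤ ∫ x in (-1 : ℝ)..1, K * |h x| := by
          apply intervalIntegral.integral_mono_on (by norm_num)
          · apply Continuous.intervalIntegrable; fun_prop
          · apply Continuous.intervalIntegrable; fun_prop
          · intro x hx
            rw [abs_mul, mul_comm]
            exact mul_le_mul_of_nonneg_right (hb x (abs_le.2 ⟨hx.1, hx.2⟩)) (abs_nonneg _)
      _ = K * A := by rw [intervalIntegral.integral_const_mul]
  have h1 := key g M hg hM hgM
  have h2 := key (fun x => f x - g x) d (hf.sub hg) hd hfg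
  have h3 : ∫ x in (-1 : ℝ)..1, h x * (f x - g x) =
      (∫ x in (-1 : ℝ)..1, h x * f x) - ∫ x in (-1 : ℝ)..1, h x * g x := by
    rw [← intervalIntegral.integral_sub]
    · congr 1; ext x; ring
    · apply Continuous.intervalIntegrable; fun_prop
    · apply Continuous.intervalIntegrable; fun_prop
  rw [h3] at h2
  set F := ∫ x in (-1 : ℝ)..1, h x * f x
  set G := ∫ x in (-1 : ℝ)..1, h x * g x
  constructor
  · have e : F ^ 2 - G ^ 2 = (F - G) * ((F - G) + 2 * G) := by ring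
    rw [e, abs_mul]
    have h4 : |F - G + 2 * G| ≤ d * A + 2 * (M * A) := by
      calc |F - G + 2 * G| ≤ |F - G| + |2 * G| := abs_add_le _ _
        _ = |F - G| + 2 * |G| := by rw [abs_mul]; norm_num
        _ ≤ _ := by linarith
    calc |F - G| * |F - G + 2 * G| ≤ (d * A) * (d * A + 2 * (M * A)) :=
          mul_le_mul h2 h4 (abs_nonneg _) (by positivity)
      _ = (d * (2 * M + d)) * A ^ 2 := by ring
      _ ≤ (d * (2 * M + d)) * (2 * n) := mul_le_mul_of_nonneg_left hAn (by positivity)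
      _ = _ := by ring
  · calc G ^ 2 = |G| ^ 2 := (sq_abs _).symm
      _ ≤ (M * A) ^ 2 := pow_le_pow_left₀ (abs_nonneg _) h1 2
      _ = M ^ 2 * A ^ 2 := by ring
      _ ≤ M ^ 2 * (2 * n) := mul_le_mul_of_nonneg_left hAn (by positivity)
      _ = _ := by ring


theorem qq : S_EN → S_DB → S_N1 → S_N2 → S_N3 → S_QQ := by
  intro hEN hDB hN1 hN2 hN3 h hC2 hz
  have h1 : ContDiff ℝ 1 h := hC2.of_le (by norm_num)
  have hc : Continuous h := h1.continuous
  obtain ⟨hlam, haQ, hcosh, hsinh⟩ := hN3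
  have hEN' := hEN h h1 hz
  have hDB' := hDB h h1 hz (ev btl) (ev_cont btl)
  have hn0 := GG_nonneg hc hz
  have hG0 := GG_zero hz
  have hGle := GG_le hc hz
  have hGc := GG_cont hc hz
  obtain ⟨B, hB⟩ := GG_lip h1 hz
  unfold S_N1 at hN1
  unfold S_N2 at hN2
  have hl2 : 0 < Real.log 2 := Real.log_pos (by norm_num)
  set a : ℝ := 4 / 5 * Real.log 2 with ha
  have ha0 : 0 < a := by positivity
  have ha1 : a ≤ 0.555 := by
    have := Real.log_two_lt_d9
    rw [ha]; linarith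
  set n := ∫ x in (-1 : ℝ)..1, h x ^ 2 with hn
  rw [hG0] at hn0 hGle
  -- the kernel
  set K : ℝ → ℝ := fun s => a * Real.exp (a * s / 2) / Real.sinh (a * s) - 1 / s with hK
  have hsne : ∀ s ∈ Ioc (0 : ℝ) 2, Real.sinh (a * s) ≠ 0 := by
    intro s hs
    have : 0 < Real.sinh (a * s) := Real.sinh_pos_iff.2 (mul_pos ha0 hs.1)
    exact this.ne'
  have hKc : ContinuousOn K (Ioc 0 2) := by
    apply ContinuousOn.sub
    · apply ContinuousOn.div
      · apply Continuous.continuousOn; fun_prop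
      · apply Continuous.continuousOn
        exact Real.continuous_sinh.comp (by fun_prop)
      · exact hsne
    · apply ContinuousOn.div continuousOn_const continuousOn_id
      intro s hs
      exact hs.1.ne'
  have hii1 : IntervalIntegrable (fun s => (GG h 0 - GG h s) / s) volume 0 2 := by
    apply ii_bdd (B := B)
    · apply ContinuousOn.div
      · apply Continuous.continuousOn; fun_prop
      · exact continuousOn_id
      · intro s hs; exact hs.1.ne'
    · intro s hs; exact hB s hs.1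
  obtain ⟨E, hE⟩ : ∃ E : ℝ, ∀ s ∈ Icc (0 : ℝ) 2, |ev btl s| ≤ E := by
    obtain ⟨E, hE⟩ := (isCompact_Icc (a := (0 : ℝ)) (b := 2)).exists_bound_of_continuousOn
      (ev_cont btl).continuousOn
    exact ⟨E, hE⟩
  have hii2 : IntervalIntegrable (fun s => K s * GG h s) volume 0 2 := by
    apply ii_bdd (B := (E + 1) * n)
    · exact hKc.mul hGc.continuousOn
    · intro s hs
      rw [abs_mul]
      have e1 := hN2 s hs.1 hs.2
      have e2 := hE s ⟨hs.1.le, hs.2⟩
      have e3 : |K s| ≤ E + 1 := by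
        have : K s = (K s - ev btl s) + ev btl s := by ring
        rw [this]
        calc _ ≤ |K s - ev btl s| + |ev btl s| := abs_add_le _ _
          _ ≤ 3 / 10 ^ 10 + E := add_le_add e1 e2
          _ ≤ E + 1 := by norm_num; linarith
      exact mul_le_mul e3 (hGle s) (abs_nonneg _) ((abs_nonneg _).trans e3)
  have hii3 : IntervalIntegrable (fun s => ev btl s * GG h s) volume 0 2 :=
    ((ev_cont btl).mul hGc).intervalIntegrable _ _
  have hsplit : (∫ s in (0 : ℝ)..2, (GG h 0 / s - a * Real.exp (a * s / 2) / Real.sinh (a * s) * GG h s))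
      = (∫ s in (0 : ℝ)..2, (GG h 0 - GG h s) / s) - ∫ s in (0 : ℝ)..2, K s * GG h s := by
    rw [← intervalIntegral.integral_sub hii1 hii2]
    congr 1
    ext s
    rw [hK]
    ring
  have hdiff : |(∫ s in (0 : ℝ)..2, K s * GG h s) - ∫ s in (0 : ℝ)..2, ev btl s * GG h s| ≤
      3 / 10 ^ 10 * n * 2 := by
    rw [← intervalIntegral.integral_sub hii2 hii3]
    have := intervalIntegral.norm_integral_le_of_norm_le_const (a := (0 : ℝ)) (b := 2)
      (C := 3 / 10 ^ 10 * n) (f := fun s => K s * GG h s - ev btl s * GG h s) (by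
        intro s hs
        rw [uIoc_of_le (by norm_num)] at hs
        rw [← sub_mul, norm_mul, Real.norm_eq_abs, Real.norm_eq_abs]
        exact mul_le_mul (hN2 s hs.1 hs.2) (hGle s) (abs_nonneg _) (by positivity))
    rw [Real.norm_eq_abs] at this
    calc _ ≤ _ := this
      _ = _ := by norm_num
  -- log 2 + Um
  have hUm : Continuous Um := by
    unfold Um
    fun_prop
  have hEU : (∫ x in (-1 : ℝ)..1, (Real.log 2 + Um x) * h x ^ 2) =
      Real.log 2 * n + ∫ x in (-1 : ℝ)..1, Um x * h x ^ 2 := by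
    rw [hn, ← intervalIntegral.integral_const_mul, ← intervalIntegral.integral_add]
    · congr 1; ext x; ring
    · apply Continuous.intervalIntegrable; fun_prop
    · apply Continuous.intervalIntegrable; fun_prop
  -- shift term
  have h54 : Real.log 2 / a = 5 / 4 := by
    rw [ha]; field_simp
  have hG54 := GG_54 hz
  have hlamt : |(Real.log 2 / Real.sqrt 2 - (lamQ : ℝ)) * GG h (5 / 4)| ≤ 1 / 10 ^ 12 * n := by
    rw [abs_mul]
    exact mul_le_mul hlam (hGle _) (abs_nonneg _) (by positivity)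
  -- cosh and sinh terms
  have hcpl : ∀ x : ℝ, |x| ≤ 1 → |ev cpl x| ≤ 1.04 := by
    intro x hx
    refine (ev_abs cpl hx).trans ?_
    have : ((cpl.map (fun a => |a|)).sum : ℚ) ≤ 1.04 := by
      simp only [cpl, List.map_cons, List.map_nil, List.sum_cons, List.sum_nil]
      norm_num [abs_of_nonneg]
    have h2 : (((cpl.map (fun a => |a|)).sum : ℚ) : ℝ) ≤ ((1.04 : ℚ) : ℝ) := by exact_mod_cast this
    refine h2.trans ?_
    norm_num
  have hspl : ∀ x : ℝ, |x| ≤ 1 → |ev spl x| ≤ 0.3 := by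
    intro x hx
    refine (ev_abs spl hx).trans ?_
    have : ((spl.map (fun a => |a|)).sum : ℚ) ≤ 0.3 := by
      simp only [spl, List.map_cons, List.map_nil, List.sum_cons, List.sum_nil]
      norm_num [abs_of_nonneg]
    have h2 : (((spl.map (fun a => |a|)).sum : ℚ) : ℝ) ≤ ((0.3 : ℚ) : ℝ) := by exact_mod_cast this
    refine h2.trans ?_
    norm_num
  have hcc : Continuous (fun x : ℝ => Real.cosh (a * x / 2)) :=
    Real.continuous_cosh.comp (by fun_prop)
  have hsc : Continuous (fun x : ℝ => Real.sinh (a * x / 2)) :=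
    Real.continuous_sinh.comp (by fun_prop)
  obtain ⟨hC1, hC2'⟩ := lin_cmp hc hcc (ev_cont cpl) (d := 2 / 10 ^ 12) (M := 1.04) (by norm_num)
    (by norm_num) hcosh hcpl
  obtain ⟨hS1, hS2⟩ := lin_cmp hc hsc (ev_cont spl) (d := 2 / 10 ^ 12) (M := 0.3) (by norm_num)
    (by norm_num) hsinh hspl
  rw [← hn] at hC1 hC2' hS1 hS2
  unfold QQ Qr
  rw [hsplit, h54, hG54, hG0]
  rw [hG54] at hlamt
  rw [hG0] at hEN'
  rw [hDB'] at hdiff
  rw [hEU] at hEN'
  set W := ∫ x in (-1 : ℝ)..(-1 / 4), h x * h (x + 5 / 4)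
  set U := ∫ x in (-1 : ℝ)..1, Um x * h x ^ 2
  set P := ∫ s in (0 : ℝ)..2, K s * GG h s
  set R := ∫ x in (-1 : ℝ)..1, (∫ y in x..1, ev btl (y - x) * (h x * h y))
  set J := ∫ s in (0 : ℝ)..2, (n - GG h s) / s
  set C := ∫ x in (-1 : ℝ)..1, h x * Real.cosh (a * x / 2)
  set C' := ∫ x in (-1 : ℝ)..1, h x * ev cpl x
  set S := ∫ x in (-1 : ℝ)..1, h x * Real.sinh (a * x / 2)
  set S' := ∫ x in (-1 : ℝ)..1, h x * ev spl x
  set L := Real.eulerMascheroniConstant + Real.log (4 * Real.pi * a)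
  set lr := Real.log 2 / Real.sqrt 2
  clear_value W U P R J C C' S S' L lr
  have k1 : L * n ≤ ((c2Q : ℝ) + Real.log 2 - 1 / 10 ^ 10) * n :=
    mul_le_mul_of_nonneg_right (by linarith) hn0
  have k2 := (abs_le.1 hdiff).2
  have k3 := (abs_le.1 hlamt).2
  have k4 : 2 * (aQ : ℝ) * C' ^ 2 - 2 * a * C ^ 2 ≤ 2 / 10 ^ 11 * n := by
    have e1 : a * (C' ^ 2 - C ^ 2) ≤ 0.555 * (2 * (2 / 10 ^ 12) * (2 * 1.04 + 2 / 10 ^ 12) * n) := by
      calc a * (C' ^ 2 - C ^ 2) ≤ a * (2 * (2 / 10 ^ 12) * (2 * 1.04 + 2 / 10 ^ 12) * n) :=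
            mul_le_mul_of_nonneg_left (by have := (abs_le.1 hC1).1; linarith) ha0.le
        _ ≤ _ := mul_le_mul_of_nonneg_right ha1 (by positivity)
    have e2 : ((aQ : ℝ) - a) * C' ^ 2 ≤ 1 / 10 ^ 12 * (2 * 1.04 ^ 2 * n) := by
      calc ((aQ : ℝ) - a) * C' ^ 2 ≤ (1 / 10 ^ 12) * C' ^ 2 :=
            mul_le_mul_of_nonneg_right (by have := (abs_le.1 haQ).1; linarith) (sq_nonneg _)
        _ ≤ _ := mul_le_mul_of_nonneg_left hC2' (by norm_num)
    have e3 : 2 * (aQ : ℝ) * C' ^ 2 - 2 * a * C ^ 2 =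
        2 * (((aQ : ℝ) - a) * C' ^ 2) + 2 * (a * (C' ^ 2 - C ^ 2)) := by ring
    rw [e3]
    norm_num at e1 e2 ⊢
    linarith
  have k5 : 2 * a * S ^ 2 - 2 * (aQ : ℝ) * S' ^ 2 ≤ 1 / 10 ^ 11 * n := by
    have e1 : a * (S ^ 2 - S' ^ 2) ≤ 0.555 * (2 * (2 / 10 ^ 12) * (2 * 0.3 + 2 / 10 ^ 12) * n) := by
      calc a * (S ^ 2 - S' ^ 2) ≤ a * (2 * (2 / 10 ^ 12) * (2 * 0.3 + 2 / 10 ^ 12) * n) :=
            mul_le_mul_of_nonneg_left (by have := (abs_le.1 hS1).2; linarith) ha0.le
        _ ≤ _ := mul_le_mul_of_nonneg_right ha1 (by positivity)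
    have e2 : (a - (aQ : ℝ)) * S' ^ 2 ≤ 1 / 10 ^ 12 * (2 * 0.3 ^ 2 * n) := by
      calc (a - (aQ : ℝ)) * S' ^ 2 ≤ (1 / 10 ^ 12) * S' ^ 2 :=
            mul_le_mul_of_nonneg_right (by have := (abs_le.1 haQ).2; linarith) (sq_nonneg _)
        _ ≤ _ := mul_le_mul_of_nonneg_left hS2 (by norm_num)
    have e3 : 2 * a * S ^ 2 - 2 * (aQ : ℝ) * S' ^ 2 =
        2 * ((a - (aQ : ℝ)) * S' ^ 2) + 2 * (a * (S ^ 2 - S' ^ 2)) := by ring
    rw [e3]
    norm_num at e1 e2 ⊢
    linarith
  norm_num at k1 k2 k3 k4 k5 ⊢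
  nlinarith

end Pool.Agent.W15.WP
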