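import Mathlib
import Pool.Agent.W187.WP.Stmts3

/-!
# Soundness of a positive semidefiniteness certificate (subtask WP-PSD)
-/

open Pool.Agent.W187.WP

namespace Pool.Agent.W15.WP

theorem sumN_eq (n : ℕ) (f : ℕ → ℚ) : sumN n f = ∑ i ∈ Finset.range n, f i := by
  induction n with
  | zero => rfl
  | succ k ih => rw [Finset.sum_range_succ, ← ih]; rfl

theorem dot_eq : ∀ (p q : List ℚ) (N : ℕ), p.length ≤ N →
    dot p q = ∑ k ∈ Finset.range N, p.getD k 0 * q.getD k 0
  | [], q, N, _ => by simp [dot]
  | a :: p, [], N, _ => by simp [dot]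
  | a :: p, b :: q, 0, h => by simp at h
  | a :: p, b :: q, N + 1, h => by
      rw [Finset.sum_range_succ']
      simp only [dot, List.getD_cons_succ, List.getD_cons_zero]
      rw [dot_eq p q N (by simpa using h)]
      ring

theorem psd : S_PSD := by
  intro n M L hchk c
  unfold chkPSD at hchk
  rw [List.all_eq_true] at hchk
  -- common bound for the lengths
  obtain ⟨N, hN⟩ : ∃ N : ℕ, ∀ i ∈ Finset.range n, (L.getD i []).length ≤ N := by
    refine ⟨∑ i ∈ Finset.range n, (L.getD i []).length, fun i hi => ?_⟩
    exact Finset.single_le_sum (f := fun i => (L.getD i []).length) (fun _ _ => Nat.zero_le _) hi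
  set E : ℕ → ℕ → ℝ := fun i j => ((res M L i j : ℚ) : ℝ) with hE
  set l : ℕ → ℕ → ℝ := fun i k => (((L.getD i []).getD k 0 : ℚ) : ℝ) with hl
  have h1 : ∀ i ∈ Finset.range n, ∀ j, ((ent M i j : ℚ) : ℝ) = E i j +
      ∑ k ∈ Finset.range N, l i k * l j k := by
    intro i hi j
    have e := dot_eq (L.getD i []) (L.getD j []) N (hN i hi)
    simp only [hE, hl, res]
    push_cast
    rw [e]
    push_cast
    ring
  have h2 : ∑ i ∈ Finset.range n, ∑ j ∈ Finset.range n, ((ent M i j : ℚ) : ℝ) * (c i * c j) =
      (∑ i ∈ Finset.range n, ∑ j ∈ Finset.range n, E i j * (c i * c j)) +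
      ∑ k ∈ Finset.range N, (∑ i ∈ Finset.range n, l i k * c i) ^ 2 := by
    have e1 : ∑ k ∈ Finset.range N, (∑ i ∈ Finset.range n, l i k * c i) ^ 2 =
        ∑ i ∈ Finset.range n, ∑ j ∈ Finset.range n,
          (∑ k ∈ Finset.range N, l i k * l j k) * (c i * c j) := by
      simp_rw [sq, Finset.sum_mul_sum]
      rw [Finset.sum_comm]
      apply Finset.sum_congr rfl
      intro i _
      rw [Finset.sum_comm]
      apply Finset.sum_congr rfl
      intro j _
      rw [Finset.sum_mul]
      apply Finset.sum_congr rfl
      intro k _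
      ring
    rw [e1, ← Finset.sum_add_distrib]
    apply Finset.sum_congr rfl
    intro i hi
    rw [← Finset.sum_add_distrib]
    apply Finset.sum_congr rfl
    intro j _
    rw [h1 i hi j]
    ring
  rw [h2]
  have h3 : 0 ≤ ∑ k ∈ Finset.range N, (∑ i ∈ Finset.range n, l i k * c i) ^ 2 :=
    Finset.sum_nonneg (fun k _ => sq_nonneg _)
  have h4 : 0 ≤ ∑ i ∈ Finset.range n, ∑ j ∈ Finset.range n, E i j * (c i * c j) := by
    -- lower bound of each term
    have g1 : ∀ i ∈ Finset.range n, ∀ j ∈ Finset.range n,
        (if j = i then E i i * c i ^ 2 else -(|E i j| * (c i ^ 2 + c j ^ 2) / 2)) ≤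
          E i j * (c i * c j) := by
      intro i _ j _
      by_cases hij : j = i
      · subst hij
        rw [if_pos rfl]
        apply le_of_eq; ring
      · rw [if_neg hij]
        have a1 : |E i j * (c i * c j)| ≤ |E i j| * ((c i ^ 2 + c j ^ 2) / 2) := by
          rw [abs_mul]
          apply mul_le_mul_of_nonneg_left _ (abs_nonneg _)
          rw [abs_le]
          constructor <;> nlinarith [sq_nonneg (c i + c j), sq_nonneg (c i - c j)]
        have := (abs_le.1 a1).1
        linarith
    have g2 : ∑ i ∈ Finset.range n, ∑ j ∈ Finset.range n,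
        (if j = i then E i i * c i ^ 2 else -(|E i j| * (c i ^ 2 + c j ^ 2) / 2)) ≤
        ∑ i ∈ Finset.range n, ∑ j ∈ Finset.range n, E i j * (c i * c j) :=
      Finset.sum_le_sum (fun i hi => Finset.sum_le_sum (fun j hj => g1 i hi j hj))
    refine le_trans ?_ g2
    have g3 : ∑ i ∈ Finset.range n, ∑ j ∈ Finset.range n,
        (if j = i then E i i * c i ^ 2 else -(|E i j| * (c i ^ 2 + c j ^ 2) / 2)) =
        ∑ i ∈ Finset.range n, (E i i - 1 / 2 * ∑ j ∈ Finset.range n,
          (if j = i then 0 else |E i j| + |E j i|)) * c i ^ 2 := by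
      have s1 : ∀ i ∈ Finset.range n, ∑ j ∈ Finset.range n,
          (if j = i then E i i * c i ^ 2 else -(|E i j| * (c i ^ 2 + c j ^ 2) / 2)) =
          E i i * c i ^ 2 - 1 / 2 * (∑ j ∈ Finset.range n, (if j = i then 0 else |E i j| * c i ^ 2))
            - 1 / 2 * (∑ j ∈ Finset.range n, (if j = i then 0 else |E i j| * c j ^ 2)) := by
        intro i hi
        have t1 : E i i * c i ^ 2 = ∑ j ∈ Finset.range n, (if j = i then E i i * c i ^ 2 else 0) := by
          rw [Finset.sum_ite_eq' (Finset.range n) i, if_pos hi]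
        have t2 : ∀ j ∈ Finset.range n,
            (if j = i then E i i * c i ^ 2 else -(|E i j| * (c i ^ 2 + c j ^ 2) / 2)) =
            (if j = i then E i i * c i ^ 2 else 0) - 1 / 2 * (if j = i then 0 else |E i j| * c i ^ 2)
              - 1 / 2 * (if j = i then 0 else |E i j| * c j ^ 2) := by
          intro j _
          by_cases hij : j = i
          · simp [hij]
          · simp only [if_neg hij]; ring
        rw [Finset.sum_congr rfl t2, Finset.sum_sub_distrib, Finset.sum_sub_distrib,
          ← Finset.mul_sum, ← Finset.mul_sum, ← t1]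
      rw [Finset.sum_congr rfl s1, Finset.sum_sub_distrib, Finset.sum_sub_distrib]
      have s2 : ∑ i ∈ Finset.range n, 1 / 2 * (∑ j ∈ Finset.range n,
          (if j = i then 0 else |E i j| * c j ^ 2)) =
          ∑ i ∈ Finset.range n, 1 / 2 * (∑ j ∈ Finset.range n,
          (if j = i then 0 else |E j i| * c i ^ 2)) := by
        rw [← Finset.mul_sum, ← Finset.mul_sum, Finset.sum_comm]
        congr 1
        apply Finset.sum_congr rfl
        intro i _
        apply Finset.sum_congr rfl
        intro j _
        by_cases hij : j = i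
        · simp [hij]
        · rw [if_neg hij, if_neg (Ne.symm hij)]
      rw [s2, ← Finset.sum_sub_distrib, ← Finset.sum_sub_distrib]
      apply Finset.sum_congr rfl
      intro i _
      have s3 : ∑ j ∈ Finset.range n, (if j = i then (0 : ℝ) else |E i j| + |E j i|) =
          (∑ j ∈ Finset.range n, (if j = i then 0 else |E i j|)) +
          ∑ j ∈ Finset.range n, (if j = i then 0 else |E j i|) := by
        rw [← Finset.sum_add_distrib]
        apply Finset.sum_congr rfl
        intro j _
        by_cases hij : j = i <;> simp [hij]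
      have s4 : ∀ f : ℕ → ℝ, ∑ j ∈ Finset.range n, (if j = i then 0 else f j * c i ^ 2) =
          (∑ j ∈ Finset.range n, (if j = i then 0 else f j)) * c i ^ 2 := by
        intro f
        rw [Finset.sum_mul]
        apply Finset.sum_congr rfl
        intro j _
        by_cases hij : j = i <;> simp [hij]
      rw [s3, s4 (fun j => |E i j|), s4 (fun j => |E j i|)]
      ring
    rw [g3]
    apply Finset.sum_nonneg
    intro i hi
    apply mul_nonneg _ (sq_nonneg _)
    have hc := hchk i (List.mem_range.2 (Finset.mem_range.1 hi))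
    rw [decide_eq_true_eq, sumN_eq] at hc
    have hc' : ((∑ j ∈ Finset.range n, (if j = i then 0 else |res M L i j| + |res M L j i|) : ℚ) : ℝ)
        ≤ ((2 * res M L i i : ℚ) : ℝ) := by exact_mod_cast hc
    have e : ((∑ j ∈ Finset.range n, (if j = i then 0 else |res M L i j| + |res M L j i|) : ℚ) : ℝ) =
        ∑ j ∈ Finset.range n, (if j = i then (0 : ℝ) else |E i j| + |E j i|) := by
      rw [Rat.cast_sum]
      apply Finset.sum_congr rfl
      intro j _
      by_cases hij : j = i
      · simp [hij]
      · simp only [if_neg hij, hE]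
        push_cast
        ring
    rw [e] at hc'
    push_cast at hc'
    have : E i i = ((res M L i i : ℚ) : ℝ) := rfl
    linarith
  linarith

end Pool.Agent.W15.WP
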