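import Mathlib
import Pool.Agent.W187.WP.Stmts3
import Pool.Agent.W120.WP.TRI

/-!
# Convolution kernel of a polynomial against a function (subtask WP-R2B)
-/

open MeasureTheory Set Pool.Agent.W187.WP

namespace Pool.Agent.W15.WP

theorem ev_pneg : ∀ (p : List ℚ) (x : ℝ), ev (pneg p) x = ev p (-x)
  | [], x => by simp [pneg]
  | a :: p, x => by
      simp only [pneg, ev_cons, ev_psm, ev_pneg p x]
      push_cast; ring

theorem ev_Jm (bt P : List ℚ) (x : ℝ) :
    ev (Jm bt P) x = ∫ y in (-1 : ℝ)..x, ev bt (x - y) * ev P y := by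
  unfold Jm
  rw [ev_psh']
  have h := integral_Jl bt 0 (psh' (-1) P) (x + 1)
  simp only [pow_zero, one_mul, Nat.factorial_zero, Nat.cast_one, Function.iterate_zero, id_eq] at h
  have e : ((1 : ℚ) : ℝ) = 1 := by norm_num
  rw [e, ← h]
  have h2 := intervalIntegral.integral_comp_add_right
    (f := fun t => ev bt (x + 1 - t) * ev (psh' (-1) P) t) (a := -1) (b := x) 1
  rw [show (-1 : ℝ) + 1 = 0 by norm_num] at h2
  rw [← h2]
  congr 1
  funext y
  rw [ev_psh']
  push_cast
  rw [show x + 1 - (y + 1) = x - y by ring, show y + 1 + -1 = y by ring]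

theorem ev_Jp (bt P : List ℚ) (x : ℝ) :
    ev (pneg (Jm bt (pneg P))) x = ∫ y in x..1, ev bt (y - x) * ev P y := by
  rw [ev_pneg, ev_Jm]
  have h := intervalIntegral.integral_comp_neg (f := fun y => ev bt (y - x) * ev P y) (a := -1) (b := -x)
  rw [neg_neg, neg_neg] at h
  rw [← h]
  congr 1
  funext y
  rw [ev_pneg]
  congr 2
  ring

theorem r2b : S_R2B := by
  intro bt P w hw
  have hbt := continuous_ev bt
  have hP := continuous_ev P
  set F : ℝ → ℝ → ℝ := fun x y => ev bt (y - x) * (ev P x * w y) / 2 with hF
  set G : ℝ → ℝ → ℝ := fun x y => ev bt (y - x) * (ev P y * w x) / 2 with hG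
  have hFc : Continuous (Function.uncurry F) := by
    have : Continuous (fun p : ℝ × ℝ => ev bt (p.2 - p.1) * (ev P p.1 * w p.2) / 2) := by fun_prop
    exact this
  have hGc : Continuous (Function.uncurry G) := by
    have : Continuous (fun p : ℝ × ℝ => ev bt (p.2 - p.1) * (ev P p.2 * w p.1) / 2) := by fun_prop
    exact this
  have e1 : ∫ x in (-1 : ℝ)..1, (∫ y in x..1, ev bt (y - x) * ((ev P x * w y + ev P y * w x) / 2)) =
      (∫ x in (-1 : ℝ)..1, (∫ y in x..1, F x y)) + ∫ x in (-1 : ℝ)..1, (∫ y in x..1, G x y) := by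
    rw [← intervalIntegral.integral_add
      ((Pool.Agent.W120.WP.inner_continuous F hFc).intervalIntegrable _ _)
      ((Pool.Agent.W120.WP.inner_continuous G hGc).intervalIntegrable _ _)]
    congr 1
    funext x
    rw [← intervalIntegral.integral_add]
    · congr 1
      funext y
      simp only [hF, hG]
      ring
    · apply Continuous.intervalIntegrable
      simp only [hF]
      fun_prop
    · apply Continuous.intervalIntegrable
      simp only [hG]
      fun_prop
  rw [e1, Pool.Agent.W120.WP.tri F hFc, ← intervalIntegral.integral_add]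
  · congr 1
    funext x
    have f1 : ∫ y in (-1 : ℝ)..x, F y x = w x * (1 / 2 * ev (Jm bt P) x) := by
      rw [ev_Jm, ← intervalIntegral.integral_const_mul, ← intervalIntegral.integral_const_mul]
      congr 1
      funext y
      simp only [hF]
      ring
    have f2 : ∫ y in x..1, G x y = w x * (1 / 2 * ev (pneg (Jm bt (pneg P))) x) := by
      rw [ev_Jp, ← intervalIntegral.integral_const_mul, ← intervalIntegral.integral_const_mul]
      congr 1
      funext y
      simp only [hG]
      ring
    rw [f1, f2]
    unfold Bl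
    rw [ev_psm, ev_padd]
    push_cast
    ring
  · apply Continuous.intervalIntegrable
    have : (fun y => ∫ x in (-1 : ℝ)..y, F x y) = fun y => w y * (1 / 2 * ev (Jm bt P) y) := by
      funext y
      rw [ev_Jm, ← intervalIntegral.integral_const_mul, ← intervalIntegral.integral_const_mul]
      congr 1
      funext x
      simp only [hF]
      ring
    rw [this]
    have := continuous_ev (Jm bt P)
    fun_prop
  · exact (Pool.Agent.W120.WP.inner_continuous G hGc).intervalIntegrable _ _

end Pool.Agent.W15.WP
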